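import Pool.Agent.J6H31.GA.Num

/-!
# Conjugation of roots of unity
-/

set_option autoImplicit false
set_option linter.unusedSectionVars false

namespace Pool.Agent.J6H31.GT

open Finset Polynomial Module Pool.Agent.J6H31.GA

variable {E : Type} [Field E] [CharZero E] [IsAlgClosed E]

/-- Two conjugate algebraic numbers are exchanged by an automorphism of the ring of the algebraic
integers. -/
theorem exists_conj {x y : E} (hx : IsIntegral ℤ x) (h : minpoly ℚ x = minpoly ℚ y) :
    ∃ τ : Oint E →+* Oint E, ∀ z : Oint E, (z : E) = x → (τ z : E) = y := by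
  have hxa : IsAlgebraic ℚ x := (hx.tower_top (A := ℚ)).isAlgebraic
  have hy0 : minpoly ℚ y ≠ 0 := by
    rw [← h]
    exact minpoly.ne_zero (hx.tower_top (A := ℚ))
  have hya : IsAlgebraic ℚ y := ⟨minpoly ℚ y, hy0, minpoly.aeval ℚ y⟩
  let F := algebraicClosure ℚ E
  have hxF : x ∈ F := mem_algebraicClosure_iff.2 hxa
  have hyF : y ∈ F := mem_algebraicClosure_iff.2 hya
  have : IsAlgClosure ℚ F := algebraicClosure.isAlgClosure (F := ℚ) (E := E)
  have : Normal ℚ F := IsAlgClosure.normal ℚ F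
  have hmin : ∀ z : F, minpoly ℚ z = minpoly ℚ (z : E) := fun z =>
    (minpoly.algebraMap_eq (algebraMap F E).injective z).symm
  have h1 : IsConjRoot ℚ (⟨x, hxF⟩ : F) ⟨y, hyF⟩ := by
    rw [IsConjRoot, hmin, hmin]
    exact h
  obtain ⟨σ, hσ⟩ := h1.symm.exists_algEquiv
  have hO : ∀ z : Oint E, (z : E) ∈ F := by
    intro z
    have hz : IsIntegral ℤ (z : E) := z.2
    exact mem_algebraicClosure_iff.2 (hz.tower_top (A := ℚ)).isAlgebraic
  let f : Oint E →+* E := (algebraMap F E).comp ((σ : F →+* F).comp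
    ((Oint E).subtype.codRestrict F.toSubring hO))
  have hf : ∀ z, f z ∈ Oint E := by
    intro z
    have hz : IsIntegral ℤ z := by
      have h2 : IsIntegral ℤ (z : E) := z.2
      exact (isIntegral_algHom_iff (integralClosure ℤ E).val Subtype.val_injective).1 h2
    exact map_isIntegral_int f hz
  refine ⟨f.codRestrict (Oint E) hf, fun z hz => ?_⟩
  change ((σ ⟨(z : E), hO z⟩ : F) : E) = y
  have h2 : (⟨(z : E), hO z⟩ : F) = ⟨x, hxF⟩ := Subtype.ext hz
  rw [h2, hσ]

/-- The automorphism of the algebraic integers which raises the roots of unity of order `N` to the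
power `a`. -/
theorem exists_twist {N a : ℕ} (hN : 0 < N) (ha : a.Coprime N) :
    ∃ τ : Oint E →+* Oint E, ∀ z : Oint E, z ^ N = 1 → τ z = z ^ a := by
  have : NeZero (N : E) := ⟨by exact_mod_cast hN.ne'⟩
  have : NeZero N := ⟨hN.ne'⟩
  obtain ⟨ζ, hζ⟩ := HasEnoughRootsOfUnity.exists_primitiveRoot E N
  have h1 : minpoly ℚ ζ = minpoly ℚ (ζ ^ a) := by
    rw [← cyclotomic_eq_minpoly_rat hζ hN, ← cyclotomic_eq_minpoly_rat (hζ.pow_of_coprime a ha) hN]
  have hint : IsIntegral ℤ ζ := hζ.isIntegral hN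
  obtain ⟨τ, hτ⟩ := exists_conj hint h1
  refine ⟨τ, fun z hz => ?_⟩
  have hz' : (z : E) ^ N = 1 := by
    have := congrArg Subtype.val hz
    simpa using this
  obtain ⟨i, -, hi⟩ := hζ.eq_pow_of_pow_eq_one hz'
  have h2 : z = (⟨ζ, hint⟩ : Oint E) ^ i := Subtype.ext (by
    push_cast
    exact hi.symm)
  apply Subtype.ext
  rw [h2, map_pow]
  push_cast
  rw [hτ ⟨ζ, hint⟩ rfl, ← pow_mul, ← pow_mul, mul_comm]

end Pool.Agent.J6H31.GT
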