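import Pool.Agent.J6H31.GT.Auto

/-!
# Cyclotomic factors of a polynomial modulo `p`
-/

set_option autoImplicit false
set_option linter.unusedSectionVars false

namespace Pool.Agent.J6H31.GT

open Finset Polynomial Module Pool.Agent.J6H31.GA

/-- The multiplicity of the factor `Φ_N(u T)` of `R`, `Φ_N` being the cyclotomic polynomial. -/
noncomputable def cycMult {p : ℕ} [Fact p.Prime] (u : ZMod p) (R : (ZMod p)[X]) (N : ℕ) : ℕ :=
  multiplicity ((cyclotomic N (ZMod p)).comp (C u * X)) R

/-- The total degree of the factors `Φ_N(u T)` of `R`, for the divisors `N` of `n` prime to `p`. -/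
noncomputable def cycCount {p : ℕ} [Fact p.Prime] (u : ZMod p) (R : (ZMod p)[X]) (n : ℕ) : ℕ :=
  ∑ N ∈ n.divisors with ¬ p ∣ N, N.totient * cycMult u R N

variable {p : ℕ} [Fact p.Prime]

lemma comp_eq {k : Type} [Field k] {N : ℕ} {η₀ : k} (h : IsPrimitiveRoot η₀ N) {u : k} (hu : u ≠ 0) :
    (cyclotomic N k).comp (C u * X)
      = C (u ^ N.totient) * ∏ η ∈ primitiveRoots N k, (X - C (u⁻¹ * η)) := by
  rw [cyclotomic_eq_prod_X_sub_primitiveRoots h, Polynomial.prod_comp]
  have h1 : ∀ η ∈ primitiveRoots N k, (X - C η : k[X]).comp (C u * X)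
      = C u * (X - C (u⁻¹ * η)) := by
    intro η _
    rw [sub_comp, X_comp, C_comp, mul_sub, ← C_mul, ← mul_assoc, mul_inv_cancel₀ hu, one_mul]
  rw [Finset.prod_congr rfl h1, Finset.prod_mul_distrib, Finset.prod_const, h.card_primitiveRoots,
    C_pow]

/-- If all the primitive roots of unity of order `N` give roots of multiplicity at least `e`, the
polynomial is divisible by the power of the cyclotomic polynomial. -/
theorem pow_dvd_of_mult {k : Type} [Field k] [Algebra (ZMod p) k] {N e : ℕ} {η₀ : k}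
    (h : IsPrimitiveRoot η₀ N) {u : ZMod p} (hu : u ≠ 0) {R : (ZMod p)[X]}
    (hR : R ≠ 0)
    (hmult : ∀ η : k, IsPrimitiveRoot η N →
      e ≤ (R.map (algebraMap (ZMod p) k)).rootMultiplicity (algebraMap (ZMod p) k u * η)⁻¹) :
    ((cyclotomic N (ZMod p)).comp (C u * X)) ^ e ∣ R := by
  classical
  set ι := algebraMap (ZMod p) k with hι
  have hinj : Function.Injective ι := ι.injective
  have hu' : ι u ≠ 0 := by
    intro h0
    apply hu
    apply hinj
    rw [h0, map_zero]
  have hR' : R.map ι ≠ 0 := (Polynomial.map_ne_zero_iff hinj).2 hR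
  rw [← Polynomial.map_dvd_map' ι, Polynomial.map_pow, Polynomial.map_comp, map_cyclotomic,
    Polynomial.map_mul, map_C, map_X, comp_eq h hu', mul_pow, ← C_pow]
  have hunit : IsUnit (C ((ι u ^ N.totient) ^ e) : k[X]) :=
    isUnit_C.2 (isUnit_iff_ne_zero.2 (pow_ne_zero _ (pow_ne_zero _ hu')))
  rw [hunit.mul_left_dvd, ← Finset.prod_pow]
  have hprim : ∀ η ∈ primitiveRoots N k, IsPrimitiveRoot η N := fun η hη =>
    isPrimitiveRoot_of_mem_primitiveRoots hη
  refine Finset.prod_dvd_of_coprime ?_ ?_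
  · intro a _ b _ hab
    refine IsCoprime.pow (isCoprime_X_sub_C_of_isUnit_sub (isUnit_iff_ne_zero.2 ?_))
    rw [← mul_sub]
    exact mul_ne_zero (inv_ne_zero hu') (sub_ne_zero.2 hab)
  · intro η hη
    rw [← le_rootMultiplicity_iff hR']
    have h1 := hmult η⁻¹ (hprim η hη).inv
    rwa [mul_inv, inv_inv] at h1

/-- Counting by fibres. -/
lemma card_eq_sum_fibres {X Y : Type} [DecidableEq Y] (S : Multiset X) (g : X → Y) (T : Finset Y)
    (h : ∀ x ∈ S, g x ∈ T) : S.card = ∑ y ∈ T, (S.filter fun x => g x = y).card := by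
  classical
  induction S using Multiset.induction_on with
  | empty => simp
  | cons x S ih =>
    have h1 : ∀ y, ((x ::ₘ S).filter fun x => g x = y).card
        = (S.filter fun x => g x = y).card + if y = g x then 1 else 0 := by
      intro y
      by_cases hy : g x = y
      · rw [Multiset.filter_cons_of_pos (p := fun x => g x = y) _ hy, Multiset.card_cons,
          if_pos hy.symm]
      · rw [Multiset.filter_cons_of_neg (p := fun x => g x = y) _ hy,
          if_neg (fun h => hy h.symm), add_zero]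
    rw [Multiset.card_cons, ih (fun x hx => h x (Multiset.mem_cons_of_mem hx)),
      Finset.sum_congr rfl fun y _ => h1 y, Finset.sum_add_distrib, Finset.sum_ite_eq',
      if_pos (h x (Multiset.mem_cons_self x S))]

/-- Double counting. -/
lemma sum_card_filter {X Y : Type} (S : Multiset X) (T : Finset Y) (P : Y → X → Prop)
    [∀ y, DecidablePred (P y)] [∀ x, DecidablePred fun y => P y x]
    (h : ∀ x ∈ S, (T.filter fun y => P y x).card = 1) :
    ∑ y ∈ T, (S.filter (P y)).card = S.card := by
  classical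
  induction S using Multiset.induction_on with
  | empty => simp
  | cons x S ih =>
    have h1 : ∀ y, ((x ::ₘ S).filter (P y)).card
        = (S.filter (P y)).card + if P y x then 1 else 0 := by
      intro y
      by_cases hy : P y x
      · rw [Multiset.filter_cons_of_pos _ hy, Multiset.card_cons, if_pos hy]
      · rw [Multiset.filter_cons_of_neg _ hy, if_neg hy, add_zero]
    rw [Multiset.card_cons, Finset.sum_congr rfl fun y _ => h1 y, Finset.sum_add_distrib,
      ih (fun x hx => h x (Multiset.mem_cons_of_mem hx)), Finset.sum_boole]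
    rw [Nat.cast_id, h x (Multiset.mem_cons_self x S)]

/-- Lifts of the units modulo a divisor. -/
lemma exists_lift {N n : ℕ} (hn : 0 < n) (h : N ∣ n) :
    ∃ c : (ZMod N)ˣ → ℕ, ∀ a, (c a).Coprime n ∧ ((c a : ℕ) : ZMod N) = a := by
  have : NeZero n := ⟨hn.ne'⟩
  have hs := ZMod.unitsMap_surjective h
  choose f hf using hs
  refine ⟨fun a => ((f a : (ZMod n)ˣ) : ZMod n).val, fun a => ⟨?_, ?_⟩⟩
  · exact ZMod.val_coe_unit_coprime (f a)
  · have h1 := congrArg Units.val (hf a)
    rw [ZMod.unitsMap_val] at h1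
    rw [← h1, ZMod.natCast_val]

lemma card_units_eq {k : Type} [Field k] {N : ℕ} (hN : 0 < N) {w η : k} (hw : IsPrimitiveRoot w N)
    (hη : IsPrimitiveRoot η N) (c : (ZMod N)ˣ → ℕ) (hc : ∀ a, ((c a : ℕ) : ZMod N) = a)
    [NeZero N] [DecidablePred fun a : (ZMod N)ˣ => w ^ c a = η] :
    ((Finset.univ : Finset (ZMod N)ˣ).filter fun a => w ^ c a = η).card = 1 := by
  classical
  obtain ⟨i, -, hi, hiη⟩ := hw.isPrimitiveRoot_iff.1 hη
  have hcong : ∀ a b : ℕ, w ^ a = w ^ b ↔ ((a : ℕ) : ZMod N) = b := by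
    intro a b
    rw [ZMod.natCast_eq_natCast_iff]
    have h1 := (hw.isOfFinOrder hN.ne').pow_eq_pow_iff_modEq (m := b) (n := a)
    rw [← hw.eq_orderOf] at h1
    exact h1
  rw [Finset.card_eq_one]
  refine ⟨ZMod.unitOfCoprime i hi, ?_⟩
  ext a
  rw [Finset.mem_filter, Finset.mem_singleton, ← hiη, hcong, hc]
  constructor
  · rintro ⟨-, h⟩
    exact Units.ext h
  · rintro rfl
    exact ⟨Finset.mem_univ _, rfl⟩

/-- The number of the elements of a multiset of algebraic integers which are `α` times an `n`-th root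
of unity, where the reduction of the multiset modulo all places above `p` is `R`. -/
theorem card_le_cycCount {E : Type} [Field E] [CharZero E] [IsAlgClosed E] {k : Type} [Field k]
    [Algebra (ZMod p) k] (θ : Oint E →+* k) (A : Multiset (Oint E)) {R : (ZMod p)[X]}
    (hR : ∀ θ' : Oint E →+* k, (A.map fun x => 1 - C (θ' x) * X).prod
      = R.map (algebraMap (ZMod p) k)) {α : Oint E} {u : ZMod p} (hu : u ≠ 0)
    (hα : ∀ θ' : Oint E →+* k, θ' α = algebraMap (ZMod p) k u) {n : ℕ} (hn : 0 < n)
    (S : Multiset (Oint E)) (hSA : S ≤ A) (hS : ∀ x ∈ S, x ^ n = α ^ n) :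
    S.card ≤ cycCount u R n := by
  classical
  have hp : p.Prime := Fact.out
  set ι := algebraMap (ZMod p) k with hι
  have hinj : Function.Injective ι := ι.injective
  have hchar : CharP k p := charP_of_injective_algebraMap hinj p
  have hu' : ι u ≠ 0 := by
    intro h0
    apply hu
    apply hinj
    rw [h0, map_zero]
  have hR0 : R ≠ 0 := by
    intro h0
    have h1 := hR θ
    rw [h0, Polynomial.map_zero] at h1
    exact (rm_lift θ A).2 h1
  have hα0 : (α : E) ≠ 0 := by
    intro h0
    have h1 : α = 0 := Subtype.ext h0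
    have h2 := hα θ
    rw [h1, map_zero] at h2
    exact hu' h2.symm
  let w : Oint E → k := fun x => θ x * (ι u)⁻¹
  have hw : ∀ x ∈ S, w x ^ n = 1 := by
    intro x hx
    have h1 := congrArg θ (hS x hx)
    rw [map_pow, map_pow, hα θ] at h1
    change (θ x * (ι u)⁻¹) ^ n = 1
    rw [mul_pow, h1, ← mul_pow, mul_inv_cancel₀ hu', one_pow]
  rw [card_eq_sum_fibres S (fun x => orderOf (w x)) (n.divisors.filter fun N => ¬ p ∣ N) (by
    intro x hx
    rw [Finset.mem_filter, Nat.mem_divisors]
    refine ⟨⟨orderOf_dvd_of_pow_eq_one (hw x hx), hn.ne'⟩, ?_⟩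
    rintro ⟨e, he⟩
    have h1 : w x ^ (p * e) = 1 := by rw [← he]; exact pow_orderOf_eq_one _
    have h2 : (w x ^ e - 1) ^ p = 0 := by
      rw [sub_pow_char, ← pow_mul, mul_comm e p, h1, one_pow, sub_self]
    have h3 : w x ^ e = 1 := sub_eq_zero.1 ((pow_eq_zero_iff hp.ne_zero).1 h2)
    have h4 := orderOf_dvd_of_pow_eq_one h3
    have h5 : 0 < orderOf (w x) := orderOf_pos_iff.2 (isOfFinOrder_iff_pow_eq_one.2 ⟨n, hn, hw x hx⟩)
    rw [he] at h4 h5
    have h6 : 0 < e := by
      rcases Nat.eq_zero_or_pos e with h | h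
      · rw [h, mul_zero] at h5
        exact absurd h5 (lt_irrefl 0)
      · exact h
    have h7 := Nat.le_of_dvd h6 h4
    have h8 := hp.two_le
    nlinarith)]
  refine Finset.sum_le_sum fun N hN => ?_
  rw [Finset.mem_filter, Nat.mem_divisors] at hN
  obtain ⟨⟨hNn, -⟩, hpN⟩ := hN
  have hN0 : 0 < N := Nat.pos_of_dvd_of_pos hNn hn
  have : NeZero N := ⟨hN0.ne'⟩
  set SN := S.filter fun x => orderOf (w x) = N with hSN
  obtain ⟨c, hc⟩ := exists_lift hn hNn
  by_contra hcon
  push Not at hcon
  -- a primitive root of unity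
  have hpos : 0 < SN.card := lt_of_le_of_lt (Nat.zero_le _) hcon
  obtain ⟨x₀, hx₀⟩ := Multiset.card_pos_iff_exists_mem.1 hpos
  have hprim : ∀ x ∈ SN, IsPrimitiveRoot (w x) N := by
    intro x hx
    rw [← (Multiset.mem_filter.1 hx).2]
    exact IsPrimitiveRoot.orderOf _
  choose τ hτ using fun a : (ZMod N)ˣ => exists_twist (E := E) hn (hc a).1
  let θ' : (ZMod N)ˣ → (Oint E →+* k) := fun a => θ.comp (τ a)
  have hval : ∀ a, ∀ x ∈ SN, θ' a x = ι u * w x ^ c a := by
    intro a x hx
    have hxS : x ∈ S := (Multiset.mem_filter.1 hx).1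
    have hy : ((x : E) / α) ^ n = 1 := by
      have h1 := congrArg Subtype.val (hS x hxS)
      push_cast at h1
      rw [div_pow, h1, div_self (pow_ne_zero _ hα0)]
    have hyi : IsIntegral ℤ ((x : E) / α) := by
      refine IsIntegral.of_pow hn ?_
      rw [hy]
      exact isIntegral_one
    let y : Oint E := ⟨(x : E) / α, hyi⟩
    have hxy : x = α * y := by
      apply Subtype.ext
      push_cast
      exact (mul_div_cancel₀ (x : E) hα0).symm
    have hyn : y ^ n = 1 := by
      apply Subtype.ext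
      push_cast
      exact hy
    have hwy : w x = θ y := by
      change θ x * (ι u)⁻¹ = θ y
      rw [hxy, map_mul, hα θ, mul_comm (ι u), mul_assoc, mul_inv_cancel₀ hu', mul_one]
    rw [hwy]
    change θ' a x = _
    rw [hxy, map_mul, hα (θ' a)]
    change ι u * θ (τ a y) = _
    rw [hτ a y hyn, map_pow]
  have hdvd : ((cyclotomic N (ZMod p)).comp (C u * X)) ^ (cycMult u R N + 1) ∣ R := by
    refine pow_dvd_of_mult (k := k) (hprim x₀ hx₀) hu hR0 fun η hη => ?_
    have hsum := sum_card_filter SN (Finset.univ : Finset (ZMod N)ˣ)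
      (fun a x => w x ^ c a = η) (fun x hx =>
        card_units_eq hN0 (hprim x hx) hη c (fun a => (hc a).2))
    obtain ⟨a, -, ha⟩ : ∃ a ∈ (Finset.univ : Finset (ZMod N)ˣ),
        cycMult u R N < (SN.filter fun x => w x ^ c a = η).card := by
      by_contra hno
      push Not at hno
      have h1 := Finset.sum_le_sum hno
      rw [hsum, Finset.sum_const, Finset.card_univ, ZMod.card_units_eq_totient, smul_eq_mul] at h1
      exact absurd hcon (not_lt.2 h1)
    have h1 := card_filter_le (θ' a) A (hR (θ' a)) (u := ι u * η)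
      (mul_ne_zero hu' (hη.ne_zero hN0.ne'))
    refine le_trans (Nat.succ_le_of_lt ha) (le_trans (Multiset.card_le_card ?_) h1)
    have h2 : (SN.filter fun x => w x ^ c a = η) = SN.filter fun x => θ' a x = ι u * η := by
      refine Multiset.filter_congr fun x hx => ?_
      rw [hval a x hx]
      exact ⟨fun h => by rw [h], fun h => mul_left_cancel₀ hu' h⟩
    rw [h2]
    exact Multiset.filter_le_filter _ ((Multiset.filter_le _ _).trans hSA)
  have hnu : ¬ IsUnit ((cyclotomic N (ZMod p)).comp (C u * X)) := by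
    intro h0
    have h1 := natDegree_eq_zero_of_isUnit h0
    rw [natDegree_comp, natDegree_C_mul_X _ hu, mul_one, natDegree_cyclotomic] at h1
    exact (Nat.totient_pos.2 hN0).ne' h1
  have hfin := FiniteMultiplicity.of_not_isUnit hnu hR0
  have h1 := (hfin.pow_dvd_iff_le_multiplicity).1 hdvd
  unfold cycMult at h1
  omega

end Pool.Agent.J6H31.GT
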