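import Pool.Agent.J6H31.GT.Cyc

/-!
# The dimension of the space of the classes fixed by a power of Frobenius
-/

set_option autoImplicit false
set_option linter.unusedSectionVars false

namespace Pool.Agent.J6H31.GT

open Finset Polynomial Module Module.End Pool.Agent.W528.HS Pool.Agent.J6H31.AC
  Pool.Agent.J6H31.GA

variable {G : Type} [CommGroup G] [Fintype G] {K : Covering G} {E : Type} [Field E] [CharZero E]
  [IsAlgClosed E] {r : ℕ} {V : Type} [AddCommGroup V] [Module E V] [FiniteDimensional E V]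
  {Φ : Module.End E V} {ρ : G →* Module.End E V}

/-- The number of the eigenvalues `q ^ m ζ`, `ζ ^ n = 1`. -/
theorem dim_cyc {p s d q m : ℕ} [hfact : Fact p.Prime] (hq : ¬ p ∣ q)
    (hG : ∀ g : G, g ^ p ^ s = 1) (D : Arrangement K E r) {c : ℕ → E} (hd : d = 2 * m)
    (h : IsMiddle K d c Φ ρ) {χ : G →* E} (hχ1 : χ ≠ 1) {α : E}
    (hα : α = (q : E) ^ m) {n : ℕ} (hn : 0 < n) :
    finrank E ((Φ ^ n).maxGenEigenspace (α ^ n) ⊓ eig ρ χ : Submodule E V)
      ≤ cycCount ((q : ZMod p) ^ m) (D.red p d χ) n ∧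
    (n = 1 → p = 2 → (part h.comm χ).charpoly.IsRoot (-α) →
      finrank E ((Φ ^ n).maxGenEigenspace (α ^ n) ⊓ eig ρ χ : Submodule E V) + 1
      ≤ cycCount ((q : ZMod p) ^ m) (D.red p d χ) n) := by
  classical
  have hp : p.Prime := Fact.out
  have hq0 : (q : E) ≠ 0 := by
    intro h0
    have h1 : q = 0 := by exact_mod_cast h0
    rw [h1] at hq
    exact hq (dvd_zero p)
  have hα0 : α ≠ 0 := by rw [hα]; exact pow_ne_zero _ hq0
  have hqp : (q : ZMod p) ^ m ≠ 0 := by
    refine pow_ne_zero _ ?_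
    rw [Ne, ZMod.natCast_eq_zero_iff]
    exact hq
  have heven : Even d := ⟨m, by omega⟩
  obtain ⟨k, _, _, ⟨θ⟩⟩ := Pool.Agent.W804.HS.RD.main E p hp
  let _ : Algebra (ZMod p) k := ZMod.algebra k p
  set Ψ := part h.comm χ with hΨ
  have hint := (part_congr hp hG D h hχ1).1
  obtain ⟨A', hA'⟩ := lift_mult hint
  have hαi : α ∈ Oint E := (theta_pow θ (q := q) (m := m) hα).1
  have hθα : ∀ θ' : Oint E →+* k, θ' ⟨α, hαi⟩ = algebraMap (ZMod p) k ((q : ZMod p) ^ m) := by
    intro θ'
    obtain ⟨_, h1⟩ := theta_pow θ' (q := q) (m := m) hα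
    rw [h1, map_pow, map_natCast]
  have hRed : ∀ θ' : Oint E →+* k, (A'.map fun x => 1 - C (θ' x) * X).prod
      = (D.red p d χ).map (algebraMap (ZMod p) k) := fun θ' =>
    red_eq hG D h hχ1 k θ' A' hA'
  have hbound : ∀ n : ℕ, 0 < n → (A'.filter fun x => x ^ n = (⟨α, hαi⟩ : Oint E) ^ n).card
      ≤ cycCount ((q : ZMod p) ^ m) (D.red p d χ) n := fun n hn =>
    card_le_cycCount θ A' hRed hqp hθα hn _ (Multiset.filter_le _ _)
      (fun x hx => (Multiset.mem_filter.1 hx).2)
  have hcn : ∀ g, Commute (Φ ^ n) (ρ g) := fun g => (h.comm g).pow_left _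
  have hdim : finrank E ((Φ ^ n).maxGenEigenspace (α ^ n) ⊓ eig ρ χ : Submodule E V)
      ≤ (A'.filter fun x => x ^ n = (⟨α, hαi⟩ : Oint E) ^ n).card := by
    rw [dim_part hcn, part_pow_eq h.comm, ← hΨ]
    have h1 := Submodule.finrank_mono (pow_gen Ψ hn hα0)
    refine h1.trans ((finrank_iSup_le _ _).trans ?_)
    have hζint : ∀ ζ ∈ nthRootsFinset n (1 : E), α * ζ ∈ Oint E := by
      intro ζ hζ
      rw [mem_nthRootsFinset hn] at hζ
      refine (Oint E).mul_mem hαi ?_
      have h2 : IsIntegral ℤ (ζ ^ n) := by rw [hζ]; exact isIntegral_one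
      exact IsIntegral.of_pow hn h2
    let f : E → Oint E := fun ζ => if h : α * ζ ∈ Oint E then ⟨α * ζ, h⟩ else 0
    have hf : ∀ ζ ∈ nthRootsFinset n (1 : E), (f ζ).1 = α * ζ := by
      intro ζ hζ
      simp only [f]
      rw [dif_pos (hζint ζ hζ)]
    have hinj : Set.InjOn f (nthRootsFinset n (1 : E)) := by
      intro x hx y hy hxy
      have h2 : (f x).1 = (f y).1 := congrArg Subtype.val hxy
      rw [hf x hx, hf y hy] at h2
      exact mul_left_cancel₀ hα0 h2
    rw [card_eq_sum_fibres (A'.filter fun x => x ^ n = (⟨α, hαi⟩ : Oint E) ^ n) (fun x => x)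
      ((nthRootsFinset n (1 : E)).image f) (by
        intro x hx
        rw [Finset.mem_image]
        have h2 := congrArg Subtype.val (Multiset.mem_filter.1 hx).2
        push_cast at h2
        have hmem : (x : E) / α ∈ nthRootsFinset n (1 : E) := by
          rw [mem_nthRootsFinset hn, div_pow, h2, div_self (pow_ne_zero _ hα0)]
        refine ⟨(x : E) / α, hmem, Subtype.ext ?_⟩
        rw [hf _ hmem]
        exact mul_div_cancel₀ _ hα0), Finset.sum_image hinj]
    refine Finset.sum_le_sum fun ζ hζ => ?_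
    rw [LinearMap.finrank_maxGenEigenspace_eq, ← count_roots, ← hA', ← hf ζ hζ,
      Multiset.count_map_eq_count' Subtype.val A' Subtype.val_injective (f ζ),
      Multiset.filter_filter]
    have h3 : (f ζ) ^ n = (⟨α, hαi⟩ : Oint E) ^ n := by
      apply Subtype.ext
      push_cast
      rw [hf ζ hζ, mul_pow, (mem_nthRootsFinset hn (1 : E)).1 hζ, mul_one]
    have h4 : (A'.filter fun x => x = f ζ ∧ x ^ n = (⟨α, hαi⟩ : Oint E) ^ n)
        = A'.filter fun x => f ζ = x := by
      refine Multiset.filter_congr fun x _ => ?_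
      constructor
      · rintro ⟨h5, -⟩
        exact h5.symm
      · rintro rfl
        exact ⟨rfl, h3⟩
    rw [h4, Multiset.filter_eq, Multiset.card_replicate]
  refine ⟨hdim.trans (hbound n hn), ?_⟩
  rintro rfl rfl hroot
  · have h2 : cycCount ((q : ZMod 2) ^ m) (D.red 2 d χ) 2
        = cycCount ((q : ZMod 2) ^ m) (D.red 2 d χ) 1 := by
      unfold cycCount
      congr 1
    rw [← h2]
    refine le_trans ?_ (hbound 2 (by norm_num))
    have hβi : -α ∈ Oint E := (Oint E).neg_mem hαi
    have hne : (⟨α, hαi⟩ : Oint E) ≠ ⟨-α, hβi⟩ := by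
      intro h0
      have h1 : α = -α := congrArg Subtype.val h0
      have h2 : (2 : E) * α = 0 := by linear_combination h1
      exact (mul_ne_zero two_ne_zero hα0) h2
    have h3 : 0 < A'.count ⟨-α, hβi⟩ := by
      have h4 : A'.count ⟨-α, hβi⟩ = (A'.map Subtype.val).count (-α) :=
        (Multiset.count_map_eq_count' Subtype.val A' Subtype.val_injective ⟨-α, hβi⟩).symm
      rw [h4, hA', Multiset.count_pos, mem_roots (LinearMap.charpoly_monic _).ne_zero]
      exact hroot
    have h5 : (A'.filter fun x => x ^ 1 = (⟨α, hαi⟩ : Oint E) ^ 1).card = A'.count ⟨α, hαi⟩ := by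
      have h6 : (A'.filter fun x => x ^ 1 = (⟨α, hαi⟩ : Oint E) ^ 1)
          = A'.filter fun x => (⟨α, hαi⟩ : Oint E) = x := by
        refine Multiset.filter_congr fun x _ => ?_
        rw [pow_one, pow_one]
        exact eq_comm
      rw [h6, Multiset.filter_eq, Multiset.card_replicate]
    refine le_trans (Nat.add_le_add hdim h3) ?_
    rw [h5]
    have h7 : Multiset.replicate (A'.count ⟨α, hαi⟩) ⟨α, hαi⟩
        + Multiset.replicate (A'.count ⟨-α, hβi⟩) ⟨-α, hβi⟩
        ≤ A'.filter fun x => x ^ 2 = (⟨α, hαi⟩ : Oint E) ^ 2 := by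
      rw [Multiset.le_iff_count]
      intro z
      rw [Multiset.count_add, Multiset.count_replicate, Multiset.count_replicate]
      by_cases hz : (⟨α, hαi⟩ : Oint E) = z
      · subst hz
        rw [if_pos rfl, if_neg (Ne.symm hne), add_zero, Multiset.count_filter, if_pos rfl]
      · rw [if_neg hz, zero_add]
        by_cases hz2 : (⟨-α, hβi⟩ : Oint E) = z
        · subst hz2
          rw [if_pos rfl, Multiset.count_filter, if_pos]
          apply Subtype.ext
          push_cast
          exact neg_sq α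
        · rw [if_neg hz2]
          exact Nat.zero_le _
    have h8 := Multiset.card_le_card h7
    rwa [Multiset.card_add, Multiset.card_replicate, Multiset.card_replicate] at h8

end Pool.Agent.J6H31.GT
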