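import Pool.Agent.J6H31.GT.Glob

/-!
# Tate classes over finitely generated fields: abelian groups, examples
-/

set_option autoImplicit false
set_option linter.unusedSectionVars false

namespace Pool.Agent.J6H31.GT

open Finset Polynomial Module Module.End Pool.Agent.W528.HS Pool.Agent.J6H31.AC
  Pool.Agent.J6H31.GA

variable {Γ G : Type} [Group Γ] [Group G] {E : Type} [Field E] (H : Coh Γ G E)

/-- If the span `A` of the classes of the cycles over the field which belongs to `U` contains `N` and
all invariant Tate classes (the Tate conjecture for `X / G`), it contains all Tate classes. -/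
def Coh.Descends (U : Subgroup Γ) (N : Submodule E H.V) : Prop :=
  ∀ A : Submodule E H.V, N ≤ A → H.fixed U ⊓ H.inv ≤ A → H.fixed U ≤ A

/-- Every character `χ ≠ 1` of `G` restricts to the character of a test with the property `P`. -/
def Coh.CoveredByCharacters (m : ℕ) (P : Test H m → Prop) : Prop :=
  ∀ χ : G →* E, χ ≠ 1 → ∃ t : Test H m, P t ∧ ∀ a, χ (t.ι a) = t.χ a

/-- `Z_i` and `Z_j` are disjoint, `1 / ((1 - T) (1 - q T) ^ (b + 1) (1 - q ^ 2 T))` is the zeta function
of `Y`, `1 / ((1 - T) (1 - q T) ^ b)` the one of `Z_i`, and `P / ((1 - T) (1 - q T))` the one of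
`Z_j`. -/
structure TwoDisjoint {A : Type} [CommGroup A] {K : Covering A} {r : ℕ} (D : Arrangement K E r)
    (q b : ℕ) (i j : Fin r) (P : ℤ[X]) : Prop where
  base : D.P₁ ∅ = (1 - X) * (1 - C (q : ℤ) * X) ^ (b + 1) * (1 - C ((q : ℤ) ^ 2) * X)
  base' : D.P₂ ∅ = 1
  first : D.P₁ {i} = (1 - X) * (1 - C (q : ℤ) * X) ^ b
  first' : D.P₂ {i} = 1
  second : D.P₁ {j} = (1 - X) * (1 - C (q : ℤ) * X)
  second' : D.P₂ {j} = P
  disjoint : D.P₁ {i, j} = 1
  disjoint' : D.P₂ {i, j} = 1

/-- No cyclotomic polynomial `Φ_N` with `N` prime to `p` divides `P` modulo `p`. -/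
def NoCyclotomic (p : ℕ) (P : ℤ[X]) : Prop :=
  ∀ N : ℕ, 0 < N → ¬ p ∣ N → ¬ cyclotomic N (ZMod p) ∣ P.map (Int.castRingHom (ZMod p))

variable {H}

theorem descends_of_le {U : Subgroup Γ} {N : Submodule E H.V} (hN : N ≤ H.fixed U)
    (h : H.fixed U ≤ N ⊔ H.inv) : H.Descends U N := by
  intro A hNA hA v hv
  obtain ⟨a, ha, b, hb, rfl⟩ := Submodule.mem_sup.1 (h hv)
  refine A.add_mem (hNA ha) (hA ⟨?_, hb⟩)
  have h1 := (H.fixed U).sub_mem hv (hN ha)
  rwa [add_sub_cancel_left] at h1

theorem covered_of_characters [CharZero E] [IsAlgClosed E] [Fintype G]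
    (hG : ∀ a b : G, a * b = b * a) {m : ℕ} {P : Test H m → Prop}
    (h : H.CoveredByCharacters m P) : H.Covered m P := by
  intro S hS hS0 hSi
  let _ : CommGroup G := { (inferInstance : Group G) with mul_comm := hG }
  have h1 := isotypic (ρ := H.ρ) S hS
  obtain ⟨χ, hχ⟩ : ∃ χ : G →* E, S ⊓ eig H.ρ χ ≠ ⊥ := by
    by_contra hcon
    push Not at hcon
    apply hS0
    rw [eq_bot_iff]
    refine h1.trans (iSup_le fun χ => ?_)
    rw [hcon χ]
  have hχ1 : χ ≠ 1 := by
    rintro rfl
    apply hχ
    rw [eq_bot_iff, ← hSi]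
    refine inf_le_inf_left S fun v hv => ?_
    rw [mem_inv]
    intro g
    have h2 := mem_eig.1 hv g
    rw [h2, MonoidHom.one_apply, one_smul]
  obtain ⟨t, ht, hta⟩ := h χ hχ1
  refine ⟨t, ht, fun h0 => hχ ?_⟩
  rw [eq_bot_iff, ← h0]
  refine inf_le_inf_left S fun v hv => ?_
  unfold Test.part
  rw [mem_eig]
  intro a
  have h2 := mem_eig.1 hv (t.ι a)
  change H.ρ (t.ι a) v = _
  rw [h2, hta]

/-- The polynomial of Frobenius for two disjoint branch strata. -/
theorem red_twoDisjoint {A : Type} [CommGroup A] {K : Covering A} {r : ℕ}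
    {D : Arrangement K E r} {p q b : ℕ} [Fact p.Prime] (hq : q ≡ 1 [MOD p]) {i j : Fin r}
    (hij : i ≠ j) {P : ℤ[X]} (h : TwoDisjoint D q b i j P) {χ : A →* E} (hχ : D.ram χ = {i, j}) :
    D.red p 2 χ = P.map (Int.castRingHom (ZMod p)) := by
  classical
  have hq' : ((q : ℕ) : ZMod p) = 1 := by
    have := (ZMod.natCast_eq_natCast_iff q 1 p).2 hq
    rwa [Nat.cast_one] at this
  have hpow : ({i, j} : Finset (Fin r)).powerset = {∅, {i}, {j}, {i, j}} := by
    have hj : ({j} : Finset (Fin r)).powerset = {∅, {j}} := by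
      ext A
      rw [Finset.mem_powerset, Finset.subset_singleton_iff, Finset.mem_insert,
        Finset.mem_singleton]
    rw [Finset.powerset_insert, hj]
    ext A
    simp only [Finset.mem_union, Finset.mem_insert, Finset.mem_singleton, Finset.mem_image]
    constructor
    · rintro ((h | h) | ⟨a, ha | ha, rfl⟩)
      · exact Or.inl h
      · exact Or.inr (Or.inr (Or.inl h))
      · rw [ha]
        exact Or.inr (Or.inl rfl)
      · rw [ha]
        exact Or.inr (Or.inr (Or.inr rfl))
    · rintro (h | h | h | h)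
      · exact Or.inl (Or.inl h)
      · exact Or.inr ⟨∅, Or.inl rfl, h.symm⟩
      · exact Or.inl (Or.inr h)
      · exact Or.inr ⟨{j}, Or.inr rfl, h.symm⟩
  have e1 : (∅ : Finset (Fin r)) ∉ ({{i}, {j}, {i, j}} : Finset (Finset (Fin r))) := by
    simp only [Finset.mem_insert, Finset.mem_singleton]
    rintro (h | h | h)
    · exact absurd h.symm (Finset.singleton_ne_empty i)
    · exact absurd h.symm (Finset.singleton_ne_empty j)
    · exact absurd h.symm (Finset.insert_ne_empty i {j})
  have e2 : ({i} : Finset (Fin r)) ∉ ({{j}, {i, j}} : Finset (Finset (Fin r))) := by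
    simp only [Finset.mem_insert, Finset.mem_singleton]
    rintro (h | h)
    · exact hij (Finset.singleton_injective h)
    · have h1 := congrArg Finset.card h
      rw [Finset.card_singleton, Finset.card_pair hij] at h1
      omega
  have e3 : ({j} : Finset (Fin r)) ∉ ({{i, j}} : Finset (Finset (Fin r))) := by
    simp only [Finset.mem_singleton]
    intro h
    have h1 := congrArg Finset.card h
    rw [Finset.card_singleton, Finset.card_pair hij] at h1
    omega
  have hnum : D.num (D.ram χ) = (1 - X) * (1 - C (q : ℤ) * X) ^ (b + 1)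
      * (1 - C ((q : ℤ) ^ 2) * X) * P := by
    rw [hχ, Arrangement.num, hpow, Finset.prod_insert e1, Finset.prod_insert e2,
      Finset.prod_insert e3, Finset.prod_singleton, if_pos (by rw [Finset.card_empty]; decide),
      if_neg (by rw [Finset.card_singleton]; decide), if_neg (by rw [Finset.card_singleton]; decide),
      if_pos (by rw [Finset.card_pair hij]; decide), h.base, h.first', h.second', h.disjoint]
    ring
  have hden : D.den (D.ram χ) = (1 - X) * (1 - C (q : ℤ) * X) ^ b * ((1 - X)
      * (1 - C (q : ℤ) * X)) := by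
    rw [hχ, Arrangement.den, hpow, Finset.prod_insert e1, Finset.prod_insert e2,
      Finset.prod_insert e3, Finset.prod_singleton, if_pos (by rw [Finset.card_empty]; decide),
      if_neg (by rw [Finset.card_singleton]; decide), if_neg (by rw [Finset.card_singleton]; decide),
      if_pos (by rw [Finset.card_pair hij]; decide), h.base', h.first, h.second, h.disjoint']
    ring
  rw [Arrangement.red, if_pos (by decide), hnum, hden]
  simp only [Polynomial.map_mul, Polynomial.map_sub, Polynomial.map_one, Polynomial.map_pow,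
    map_X, map_C, Int.coe_castRingHom, Int.cast_pow, Int.cast_natCast, hq', one_pow, C_1, one_mul]
  have hne : ((1 : (ZMod p)[X]) - X) ≠ 0 := by
    intro h0
    have h1 := congrArg (Polynomial.eval 0) h0
    simp at h1
  have h1 : (1 - X) * (1 - X) ^ (b + 1) * (1 - X) * P.map (Int.castRingHom (ZMod p))
      = P.map (Int.castRingHom (ZMod p)) * ((1 - X) * (1 - X) ^ b * ((1 - X) * (1 - X))) := by
    ring
  rw [h1]
  exact mul_div_cancel_right₀ _ (mul_ne_zero (mul_ne_zero hne (pow_ne_zero b hne))
    (mul_ne_zero hne hne))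

/-- If no cyclotomic polynomial divides the polynomial of `Z_j` then the test passes always. -/
theorem passes_twoDisjoint [CharZero E] [IsAlgClosed E] (t : Test H 1) {b : ℕ}
    (hq : t.q ≡ 1 [MOD t.p]) {i j : Fin t.r} (hij : i ≠ j) {P : ℤ[X]}
    (h : TwoDisjoint t.D t.q b i j P) (hχ : t.D.ram t.χ = {i, j}) :
    t.red = P.map (Int.castRingHom (ZMod t.p)) ∧
      (NoCyclotomic t.p P → ∀ N : Submodule E H.V, t.PassesAlways N) := by
  have h1 : t.red = P.map (Int.castRingHom (ZMod t.p)) := red_twoDisjoint hq hij h hχ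
  refine ⟨h1, fun hP N n _ => ?_⟩
  have hq' : ((t.q : ℕ) : ZMod t.p) = 1 := by
    have := (ZMod.natCast_eq_natCast_iff t.q 1 t.p).2 hq
    rwa [Nat.cast_one] at this
  have h2 : t.bound n = 0 := by
    unfold Test.bound cycCount
    refine Finset.sum_eq_zero fun M hM => ?_
    rw [Finset.mem_filter, Nat.mem_divisors] at hM
    have h3 : cycMult ((t.q : ZMod t.p) ^ 1) t.red M = 0 := by
      unfold cycMult
      rw [multiplicity_eq_zero, hq', one_pow, C_1, one_mul, comp_X, h1]
      exact hP M (Nat.pos_of_dvd_of_pos hM.1.1 (Nat.pos_of_ne_zero hM.1.2)) hM.2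
    rw [h3, mul_zero]
  rw [h2]
  exact Nat.zero_le _

end Pool.Agent.J6H31.GT
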