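import Pool.Agent.J6H31.GT.Dim

/-!
# Tate classes over finitely generated fields: reductions at several places, several primes `p`
-/

set_option autoImplicit false
set_option linter.unusedSectionVars false

namespace Pool.Agent.J6H31.GT

open Finset Polynomial Module Module.End Pool.Agent.W528.HS Pool.Agent.J6H31.AC
  Pool.Agent.J6H31.GA

/-- The cohomology `V = H^{2m}(X̄, ℚ̄_ℓ(m))` of a variety `X` of dimension `2 m` over a field with the
absolute Galois group `Γ`: the action `σ` of `Γ`, the action `ρ` of a group `G` of automorphisms of `X`,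
and the pairing `B` of Poincaré duality. -/
structure Coh (Γ G : Type) [Group Γ] [Group G] (E : Type) [Field E] where
  V : Type
  [add : AddCommGroup V]
  [mod : Module E V]
  [fin : FiniteDimensional E V]
  σ : Γ →* Module.End E V
  ρ : G →* Module.End E V
  comm : ∀ γ g, Commute (σ γ) (ρ g)
  B : LinearMap.BilinForm E V
  nondeg : B.Nondegenerate
  galois : ∀ γ, Similitude B (σ γ) 1
  group : ∀ g, Similitude B (ρ g) 1

attribute [instance] Coh.add Coh.mod Coh.fin

variable {Γ G : Type} [Group Γ] [Group G] {E : Type} [Field E] (H : Coh Γ G E)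

/-- The classes fixed by the subgroup `U` of the Galois group, that is the Tate classes over the
extension of the base field which belongs to `U`. -/
def Coh.fixed (U : Subgroup Γ) : Submodule E H.V := ⨅ γ : U, (H.σ γ).eigenspace 1

/-- The classes fixed by `G`, that is the cohomology of `X / G`. -/
def Coh.inv : Submodule E H.V := ⨅ g, (H.ρ g).eigenspace 1

/-- `N` is stable under `G`. -/
def Coh.Stable (N : Submodule E H.V) : Prop := ∀ g, ∀ v ∈ N, H.ρ g v ∈ N

/-- A test: a place `v` of good reduction with `q` elements in the residue field, a Frobenius element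
`F` of `Γ`, a finite abelian `p`-group `A` of automorphisms (`p` a prime which does not divide `q`)
and a character `χ ≠ 1` of `A`. The reduction of `X` with the action of `A` is given by the covering
`K` and the arrangement `D` (the branch strata and their zeta functions), and the Lefschetz formula
holds for the Frobenius `q ^ m F`; `c n` is the contribution of the other degrees. -/
structure Test (m : ℕ) where
  p : ℕ
  [prime : Fact p.Prime]
  A : Type
  [comm : CommGroup A]
  [finite : Fintype A]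
  ι : A →* G
  s : ℕ
  exponent : ∀ a : A, a ^ p ^ s = 1
  q : ℕ
  coprime : ¬ p ∣ q
  K : Covering A
  r : ℕ
  D : Arrangement K E r
  F : Γ
  c : ℕ → E
  middle : IsMiddle K (2 * m) c ((q : E) ^ m • H.σ F) (H.ρ.comp ι)
  χ : A →* E
  ne : χ ≠ 1

attribute [instance] Test.prime Test.comm Test.finite

variable {H} {m : ℕ} (t : Test H m)

/-- The part of the cohomology on which `A` acts by `χ`. -/
def Test.part : Submodule E H.V := eig (H.ρ.comp t.ι) t.χ

/-- The reduction modulo `p` of the polynomial of Frobenius on the part of `χ`, computed from the zeta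
functions of the branch strata. -/
noncomputable def Test.red : (ZMod t.p)[X] := t.D.red t.p (2 * m) t.χ

/-- The total degree of the factors `Φ_N(q ^ m T)` of `red`, for the divisors `N` of `n` which are
prime to `p`. -/
noncomputable def Test.bound (n : ℕ) : ℕ := cycCount ((t.q : ZMod t.p) ^ m) t.red n

/-- `1` if `n = 1`, `p = 2`, `χ² = 1` and the determinant of `F` on the part of `χ` is `-1`; `0`
otherwise. -/
noncomputable def Test.sgn (n : ℕ) : ℕ :=
  if n = 1 then detTerm ((t.q : E) ^ m • H.σ t.F) (H.ρ.comp t.ι) ((t.q : E) ^ m) t.p t.χ else 0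

/-- The dimension of the part of `N` on which `A` acts by `χ`. -/
noncomputable def Test.rank (N : Submodule E H.V) : ℕ := finrank E (N ⊓ t.part : Submodule E H.V)

/-- `F ^ n` is in `U`, and the bound is at most the dimension of the part of `N` plus the sign. -/
def Test.Passes (U : Subgroup Γ) (N : Submodule E H.V) : Prop :=
  ∃ n : ℕ, 0 < n ∧ t.F ^ n ∈ U ∧ t.bound n ≤ t.rank N + t.sgn n

/-- All the bounds are at most the dimension of the part of `N`. -/
def Test.PassesAlways (N : Submodule E H.V) : Prop := ∀ n : ℕ, 0 < n → t.bound n ≤ t.rank N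

variable (H m) in
/-- Every nonzero `G`-stable space of classes without nonzero invariants meets the part of a test with
the property `P`. -/
def Coh.Covered (P : Test H m → Prop) : Prop :=
  ∀ S : Submodule E H.V, H.Stable S → S ≠ ⊥ → S ⊓ H.inv = ⊥ → ∃ t : Test H m, P t ∧ S ⊓ t.part ≠ ⊥

lemma mem_fixed {U : Subgroup Γ} {v : H.V} : v ∈ H.fixed U ↔ ∀ γ ∈ U, H.σ γ v = v := by
  simp [Coh.fixed, Submodule.mem_iInf]

lemma mem_inv {v : H.V} : v ∈ H.inv ↔ ∀ g, H.ρ g v = v := by
  simp [Coh.inv, Submodule.mem_iInf]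

lemma fixed_mono {U U' : Subgroup Γ} (h : U ≤ U') : H.fixed U' ≤ H.fixed U := fun _ hv =>
  mem_fixed.2 fun γ hγ => mem_fixed.1 hv γ (h hγ)

lemma stable_fixed (U : Subgroup Γ) : H.Stable (H.fixed U) := by
  intro g v hv
  rw [mem_fixed] at hv ⊢
  intro γ hγ
  have h1 : H.σ γ (H.ρ g v) = H.ρ g (H.σ γ v) := LinearMap.congr_fun (H.comm γ g) v
  rw [h1, hv γ hγ]

lemma stable_inv : H.Stable H.inv := by
  intro g v hv
  rw [mem_inv.1 hv g]
  exact hv

lemma stable_sup {N N' : Submodule E H.V} (h : H.Stable N) (h' : H.Stable N') :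
    H.Stable (N ⊔ N') := by
  intro g v hv
  obtain ⟨a, ha, b, hb, rfl⟩ := Submodule.mem_sup.1 hv
  rw [map_add]
  exact Submodule.add_mem_sup (h g a ha) (h' g b hb)

lemma stable_inf {N N' : Submodule E H.V} (h : H.Stable N) (h' : H.Stable N') :
    H.Stable (N ⊓ N') := fun g v hv => ⟨h g v hv.1, h' g v hv.2⟩

lemma smul_pow_apply (q : E) (γ : Γ) (n : ℕ) {v : H.V} (hv : H.σ (γ ^ n) v = v) :
    ((q • H.σ γ) ^ n) v = q ^ n • v := by
  rw [_root_.smul_pow, ← map_pow, LinearMap.smul_apply, hv]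

section

variable [CharZero E] [IsAlgClosed E]

/-- The space of the classes in the part of the test which are generalized eigenvectors. -/
noncomputable def Test.gen (n : ℕ) : Submodule E H.V :=
  (((t.q : E) ^ m • H.σ t.F) ^ n).maxGenEigenspace (((t.q : E) ^ m) ^ n) ⊓ t.part

lemma le_gen {U : Subgroup Γ} {n : ℕ} (hn : t.F ^ n ∈ U) : H.fixed U ⊓ t.part ≤ t.gen n := by
  refine le_inf (fun v hv => ?_) inf_le_right
  have h1 := smul_pow_apply ((t.q : E) ^ m) t.F n (mem_fixed.1 hv.1 _ hn)
  exact (Module.End.genEigenspace _ _).mono le_top (mem_eigenspace_iff.2 h1)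

/-- The bound for the dimension. -/
theorem gen_bound {n : ℕ} (hn : 0 < n) : finrank E (t.gen n) + t.sgn n ≤ t.bound n := by
  obtain ⟨h1, h2⟩ := dim_cyc t.coprime t.exponent t.D rfl t.middle t.ne rfl hn
  unfold Test.sgn
  by_cases hn1 : n = 1
  · rw [if_pos hn1]
    unfold detTerm
    split_ifs with h3
    · refine h2 hn1 h3.1 ?_
      obtain ⟨hχ2, hc, hdet⟩ := h3.2
      have hq0 : (t.q : E) ≠ 0 := by
        intro h0
        have h4 : t.q = 0 := by exact_mod_cast h0
        have h5 := t.coprime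
        rw [h4] at h5
        exact h5 (dvd_zero _)
      refine neg_eigen (H.B.restrict (eig (H.ρ.comp t.ι) t.χ))
        (form_part H.B H.nondeg (ρ := H.ρ.comp t.ι) (fun g x y => by
          have := H.group (t.ι g) x y
          rwa [one_mul] at this) t.χ hχ2) _ (pow_ne_zero m hq0) (fun x y => ?_) hdet
      change H.B (((t.q : E) ^ m • H.σ t.F) x.1) (((t.q : E) ^ m • H.σ t.F) y.1) = _
      rw [LinearMap.smul_apply, LinearMap.smul_apply, map_smul, map_smul, LinearMap.smul_apply,
        H.galois t.F, one_mul, smul_eq_mul, smul_eq_mul, ← mul_assoc, ← pow_two]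
      rfl
    · exact h1
  · rw [if_neg hn1]
    exact h1

/-- The bound for the number of Tate classes. -/
theorem fixed_bound {U : Subgroup Γ} {n : ℕ} (hn : 0 < n) (hU : t.F ^ n ∈ U) :
    finrank E (H.fixed U ⊓ t.part : Submodule E H.V) + t.sgn n ≤ t.bound n :=
  (Nat.add_le_add_right (Submodule.finrank_mono (le_gen t hU)) _).trans (gen_bound t hn)

/-- If a test passes then the Tate classes in its part are known. -/
theorem le_of_passes {U : Subgroup Γ} {N : Submodule E H.V} (hN : N ≤ H.fixed U)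
    (h : t.Passes U N) : H.fixed U ⊓ t.part ≤ N := by
  obtain ⟨n, hn, hU, hb⟩ := h
  have h1 : N ⊓ t.part ≤ t.gen n := (inf_le_inf_right _ hN).trans (le_gen t hU)
  have h2 := gen_bound t hn
  have h3 : finrank E (t.gen n) ≤ finrank E (N ⊓ t.part : Submodule E H.V) := by
    unfold Test.rank at hb
    omega
  have h4 := Submodule.eq_of_le_of_finrank_le h1 h3
  exact ((le_gen t hU).trans h4.ge).trans inf_le_left

/-- A stable complement. -/
lemma exists_compl [Fintype G] (N : Submodule E H.V) (hN : H.Stable N) :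
    ∃ N' : Submodule E H.V, H.Stable N' ∧ N ⊓ N' = ⊥ ∧ N ⊔ N' = ⊤ := by
  classical
  obtain ⟨f, hf⟩ := N.exists_isCompl
  let π : H.V →ₗ[E] H.V := N.subtype ∘ₗ Submodule.projectionOnto N f hf
  have hπN : ∀ v, π v ∈ N := fun v => (Submodule.projectionOnto N f hf v).2
  have hπ : ∀ v ∈ N, π v = v := fun v hv =>
    congrArg Subtype.val (Submodule.projectionOnto_apply_left hf ⟨v, hv⟩)
  have hcard : (Fintype.card G : E) ≠ 0 := by exact_mod_cast Fintype.card_ne_zero
  let P : Module.End E H.V := (Fintype.card G : E)⁻¹ • ∑ g : G, H.ρ g * π * H.ρ g⁻¹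
  have hPN : ∀ v, P v ∈ N := by
    intro v
    change ((Fintype.card G : E)⁻¹ • ∑ g : G, H.ρ g * π * H.ρ g⁻¹) v ∈ N
    rw [LinearMap.smul_apply, LinearMap.sum_apply]
    exact N.smul_mem _ (N.sum_mem fun g _ => hN g _ (hπN _))
  have hP : ∀ v ∈ N, P v = v := by
    intro v hv
    change ((Fintype.card G : E)⁻¹ • ∑ g : G, H.ρ g * π * H.ρ g⁻¹) v = v
    rw [LinearMap.smul_apply, LinearMap.sum_apply]
    have h1 : ∀ g ∈ (univ : Finset G), (H.ρ g * π * H.ρ g⁻¹) v = v := by
      intro g _
      change H.ρ g (π (H.ρ g⁻¹ v)) = v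
      rw [hπ _ (hN g⁻¹ v hv)]
      rw [← Module.End.mul_apply, ← map_mul, mul_inv_cancel, map_one, Module.End.one_apply]
    rw [Finset.sum_congr rfl h1, Finset.sum_const, Finset.card_univ, ← Nat.cast_smul_eq_nsmul E,
      smul_smul, inv_mul_cancel₀ hcard, one_smul]
  have hcomm : ∀ h : G, H.ρ h * P = P * H.ρ h := by
    intro h
    change H.ρ h * ((Fintype.card G : E)⁻¹ • ∑ g : G, H.ρ g * π * H.ρ g⁻¹)
      = ((Fintype.card G : E)⁻¹ • ∑ g : G, H.ρ g * π * H.ρ g⁻¹) * H.ρ h
    rw [mul_smul_comm, smul_mul_assoc, Finset.mul_sum, Finset.sum_mul]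
    congr 1
    refine Fintype.sum_equiv (Equiv.mulLeft h) _ _ fun g => ?_
    rw [Equiv.coe_mulLeft, mul_inv_rev, map_mul, map_mul]
    have h1 : H.ρ h⁻¹ * H.ρ h = 1 := by rw [← map_mul, inv_mul_cancel, map_one]
    simp only [mul_assoc]
    rw [h1, mul_one]
  refine ⟨LinearMap.ker P, ?_, ?_, ?_⟩
  · intro g v hv
    rw [LinearMap.mem_ker] at hv ⊢
    have h1 : P (H.ρ g v) = H.ρ g (P v) := (LinearMap.congr_fun (hcomm g) v).symm
    rw [h1, hv, map_zero]
  · rw [eq_bot_iff]
    rintro v ⟨hv, hv'⟩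
    rw [SetLike.mem_coe, LinearMap.mem_ker, hP v hv] at hv'
    exact (Submodule.mem_bot E).2 hv'
  · rw [eq_top_iff]
    intro v _
    rw [Submodule.mem_sup]
    refine ⟨P v, hPN v, v - P v, ?_, add_sub_cancel _ _⟩
    rw [LinearMap.mem_ker, map_sub, hP _ (hPN v), sub_self]

/-- **The Tate classes over the field which belongs to `U`.** -/
theorem fixed_le [Fintype G] {U : Subgroup Γ} {N : Submodule E H.V} (hN : N ≤ H.fixed U)
    (hNG : H.Stable N) (h : H.Covered m fun t => t.Passes U N) :
    H.fixed U ≤ N ⊔ H.inv := by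
  obtain ⟨N', hN', h1, h2⟩ := exists_compl (H.fixed U ⊓ (N ⊔ H.inv))
    (stable_inf (stable_fixed U) (stable_sup hNG stable_inv))
  set S := H.fixed U ⊓ N' with hS
  have hSs : H.Stable S := stable_inf (stable_fixed U) hN'
  have hSbot : S = ⊥ := by
    by_contra hne
    have hinv : S ⊓ H.inv = ⊥ := by
      rw [eq_bot_iff, ← h1]
      rintro v ⟨⟨hv1, hv2⟩, hv3⟩
      exact ⟨⟨hv1, Submodule.mem_sup_right hv3⟩, hv2⟩
    obtain ⟨t, ht, hSt⟩ := h S hSs hne hinv
    apply hSt
    rw [eq_bot_iff, ← h1]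
    rintro v ⟨⟨hv1, hv2⟩, hv3⟩
    exact ⟨⟨hv1, Submodule.mem_sup_left (le_of_passes t hN ht ⟨hv1, hv3⟩)⟩, hv2⟩
  intro v hv
  have hv' : v ∈ H.fixed U ⊓ (N ⊔ H.inv) ⊔ N' := by rw [h2]; exact Submodule.mem_top
  obtain ⟨a, ha, b, hb, hab⟩ := Submodule.mem_sup.1 hv'
  have hbS : b ∈ S := by
    refine ⟨?_, hb⟩
    have h3 : b = v - a := by rw [← hab, add_sub_cancel_left]
    rw [h3]
    exact (H.fixed U).sub_mem hv ha.1
  rw [hSbot, Submodule.mem_bot] at hbS
  rw [← hab, hbS, add_zero]
  exact ha.2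

/-- **The Tate classes over all finite extensions.** -/
theorem fixed_le_always [Fintype G] {N : Submodule E H.V} (hNG : H.Stable N) {U₀ : Subgroup Γ}
    (hU₀ : U₀.index ≠ 0) (hN : N ≤ H.fixed U₀) (h : H.Covered m fun t => t.PassesAlways N)
    {U : Subgroup Γ} (hU : U.index ≠ 0) : H.fixed U ≤ N ⊔ H.inv := by
  have hi : (U ⊓ U₀).index ≠ 0 := Subgroup.index_inf_ne_zero hU hU₀
  refine (fixed_mono (inf_le_left (b := U₀))).trans
    (fixed_le (m := m) (hN.trans (fixed_mono inf_le_right)) hNG ?_)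
  intro S hS hS0 hSi
  obtain ⟨t, ht, hSt⟩ := h S hS hS0 hSi
  refine ⟨t, ?_, hSt⟩
  obtain ⟨n, hn, -, hmem⟩ := Subgroup.exists_pow_mem_of_index_ne_zero hi t.F
  exact ⟨n, hn, hmem, (ht n hn).trans (Nat.le_add_right _ _)⟩

end

end Pool.Agent.J6H31.GT
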